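import Pool.Agent.helper90.KS.Spec

/-!
# Project ks, module SP: the spider is balanced and its powers are bipartite
-/

set_option autoImplicit false

open scoped BigOperators

namespace Pool.Agent.KS

open Pool.Agent.helper23.TH

noncomputable section

open Classical

theorem SP_ed_left (s : ℕ) (i : Fin s) :
    @Eq ((Fin s ⊕ Fin (s + 1)) × (Fin s ⊕ Fin (s + 1)))
      ((spider s).ed (Fin.castAdd s i)) (Sum.inl i, Sum.inr i.succ) := by
  simp only [spider]
  exact Fin.addCases_left i

theorem SP_ed_right (s : ℕ) (i : Fin s) :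
    @Eq ((Fin s ⊕ Fin (s + 1)) × (Fin s ⊕ Fin (s + 1)))
      ((spider s).ed (Fin.natAdd s i)) (Sum.inr 0, Sum.inr i.succ) := by
  simp only [spider]
  exact Fin.addCases_right i

theorem SP_balanced (s : ℕ) (hs : 1 ≤ s) : (spider s).Balanced := by
  intro S
  change Finset (Fin (s + 1)) at S
  have h1 : S.card = (if (0 : Fin (s + 1)) ∈ S then 1 else 0) +
      ∑ i : Fin s, (if i.succ ∈ S then 1 else 0) := by
    rw [← Fin.sum_univ_succ (fun x : Fin (s + 1) => if x ∈ S then 1 else 0), ← Finset.card_filter]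
    congr 1
    ext x
    simp
  have h2 : (spider s).es S = ∑ i : Fin s, (if i.succ ∈ S then 1 else 0) +
      ∑ i : Fin s, (if (0 : Fin (s + 1)) ∈ S ∨ i.succ ∈ S then 1 else 0) := by
    unfold Rooted.es
    rw [Finset.card_filter]
    change (∑ k : Fin (s + s), _) = _
    rw [Fin.sum_univ_add]
    congr 1
    · apply Finset.sum_congr rfl
      intro i _
      have e := SP_ed_left s i
      apply if_congr _ rfl rfl
      change (∃ x : Fin (s + 1), x ∈ S ∧ (@Prod.fst (Fin s ⊕ Fin (s + 1)) (Fin s ⊕ Fin (s + 1))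
        ((spider s).ed (Fin.castAdd s i)) = Sum.inr x ∨
        @Prod.snd (Fin s ⊕ Fin (s + 1)) (Fin s ⊕ Fin (s + 1))
        ((spider s).ed (Fin.castAdd s i)) = Sum.inr x)) ↔ i.succ ∈ S
      rw [e]
      constructor
      · rintro ⟨x, hx, h | h⟩
        · cases h
        · have := Sum.inr.inj h
          rw [this]
          exact hx
      · intro h
        exact ⟨i.succ, h, Or.inr rfl⟩
    · apply Finset.sum_congr rfl
      intro i _
      have e := SP_ed_right s i
      apply if_congr _ rfl rfl
      change (∃ x : Fin (s + 1), x ∈ S ∧ (@Prod.fst (Fin s ⊕ Fin (s + 1)) (Fin s ⊕ Fin (s + 1))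
        ((spider s).ed (Fin.natAdd s i)) = Sum.inr x ∨
        @Prod.snd (Fin s ⊕ Fin (s + 1)) (Fin s ⊕ Fin (s + 1))
        ((spider s).ed (Fin.natAdd s i)) = Sum.inr x)) ↔ (0 : Fin (s + 1)) ∈ S ∨ i.succ ∈ S
      rw [e]
      constructor
      · rintro ⟨x, hx, h | h⟩
        · have := Sum.inr.inj h
          left
          rw [this]
          exact hx
        · have := Sum.inr.inj h
          right
          rw [this]
          exact hx
      · rintro (h | h)
        · exact ⟨0, h, Or.inl rfl⟩
        · exact ⟨i.succ, h, Or.inr rfl⟩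
  have h3 : ∑ i : Fin s, (if i.succ ∈ S then 1 else 0) ≤ s := by
    calc ∑ i : Fin s, (if i.succ ∈ S then 1 else 0) ≤ ∑ i : Fin s, 1 := by
          apply Finset.sum_le_sum
          intro i _
          split_ifs <;> omega
      _ = s := by simp
  change (s + s) * S.card ≤ (s + 1) * (spider s).es S
  rw [h2, h1]
  by_cases h0 : (0 : Fin (s + 1)) ∈ S
  · simp only [h0, true_or, if_true]
    rw [Finset.sum_const, Finset.card_univ, Fintype.card_fin, smul_eq_mul, mul_one]
    generalize ∑ i : Fin s, (if i.succ ∈ S then 1 else 0) = j at h3 ⊢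
    obtain ⟨a, ha⟩ : ∃ a, s = a + 1 := ⟨s - 1, by omega⟩
    obtain ⟨b, hb⟩ : ∃ b, s = j + b := ⟨s - j, by omega⟩
    have h5 : s * s = (a + 1) * (j + b) := by rw [← ha, ← hb]
    have h6 : a * s = a * j + a * b := by rw [hb]; ring
    have h7 : s * j = a * j + j := by rw [ha]; ring
    have h8 : s * s = a * s + s := by nth_rewrite 1 [ha]; ring
    nlinarith [Nat.zero_le (a * b)]
  · simp only [h0, false_or, if_false]
    generalize ∑ i : Fin s, (if i.succ ∈ S then 1 else 0) = j at h3 ⊢
    nlinarith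

/-- the colouring of the powers of the spider -/
def SP_col (s p : ℕ) : Fin s ⊕ (Fin p × Fin (s + 1)) → Fin 2
  | .inl _ => 0
  | .inr (_, x) => if x = 0 then 0 else 1

theorem SP_col_ed (s p : ℕ) (t : Fin p) (k : Fin (s + s)) :
    SP_col s p ((spider s).lift t ((spider s).ed k).1) = 0 ∧
    SP_col s p ((spider s).lift t ((spider s).ed k).2) = 1 := by
  induction k using Fin.addCases with
  | left i =>
    rw [SP_ed_left s i]
    constructor
    · rfl
    · change (if i.succ = 0 then (0 : Fin 2) else 1) = 1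
      rw [if_neg (Fin.succ_ne_zero i)]
  | right i =>
    rw [SP_ed_right s i]
    constructor
    · change (if (0 : Fin (s + 1)) = 0 then (0 : Fin 2) else 1) = 0
      rw [if_pos rfl]
    · change (if i.succ = 0 then (0 : Fin 2) else 1) = 1
      rw [if_neg (Fin.succ_ne_zero i)]

/-- module SP -/
theorem SP : SP_stmt := by
  intro s hs
  refine ⟨SP_balanced s hs, ?_⟩
  intro p
  refine ⟨SimpleGraph.Coloring.mk (SP_col s p) ?_⟩
  rintro a b ⟨t, k, ⟨ha, hb⟩ | ⟨hb, ha⟩⟩
  · rw [ha, hb, (SP_col_ed s p t k).1, (SP_col_ed s p t k).2]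
    decide
  · rw [ha, hb, (SP_col_ed s p t k).1, (SP_col_ed s p t k).2]
    decide

end

end Pool.Agent.KS
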